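import Mathlib
import Pool.Agent.N178.HW.StmB

/-!
# Adjoints of equivariant maps of tensor spaces
-/

set_option linter.unusedSectionVars false

namespace Pool.Agent.N634.GHC

open Finset Matrix Pool.Agent.W437.HC Pool.Agent.V1168.GH Pool.Agent.W548.Odd

noncomputable section

section adj

variable {ι ι' : Type*} [Fintype ι] [DecidableEq ι] [Fintype ι'] [DecidableEq ι']

theorem ip_conj (u c : ι → ℂ) : (starRingEnd ℂ) (ip u c) = ip c u := by
  unfold ip
  rw [map_sum]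
  exact sum_congr rfl fun I _ => by rw [map_mul, Complex.conj_conj, mul_comm]

theorem ip_add_right (u c d : ι → ℂ) : ip u (c + d) = ip u c + ip u d := by
  unfold ip
  rw [← sum_add_distrib]
  exact sum_congr rfl fun I _ => by rw [Pi.add_apply, mul_add]

theorem ip_smul_right (a : ℂ) (u c : ι → ℂ) : ip u (a • c) = a * ip u c := by
  unfold ip
  rw [mul_sum]
  exact sum_congr rfl fun I _ => by rw [Pi.smul_apply, smul_eq_mul]; ring

theorem ip_zero_right (u : ι → ℂ) : ip u 0 = 0 := by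
  unfold ip
  exact sum_eq_zero fun I _ => by rw [Pi.zero_apply, mul_zero]

theorem ip_sum_right {α : Type*} (s : Finset α) (u : ι → ℂ) (c : α → ι → ℂ) :
    ip u (∑ a ∈ s, c a) = ∑ a ∈ s, ip u (c a) := by
  classical
  induction s using Finset.induction_on with
  | empty => rw [sum_empty, sum_empty, ip_zero_right]
  | insert a s ha ih => rw [sum_insert ha, sum_insert ha, ip_add_right, ih]

/-- The adjoint of a linear map. -/
def adj (ψ : (ι → ℂ) →ₗ[ℂ] (ι' → ℂ)) : (ι' → ℂ) →ₗ[ℂ] (ι → ℂ) where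
  toFun w := fun I => (starRingEnd ℂ) (ip w (ψ (Pi.single I 1)))
  map_add' v w := by
    funext I
    rw [Pi.add_apply, ip_add_left, map_add]
  map_smul' a w := by
    funext I
    rw [Pi.smul_apply, ip_smul_left, map_mul, Complex.conj_conj]
    rfl

theorem sum_single_one (u : ι → ℂ) : u = ∑ I, u I • (Pi.single I 1 : ι → ℂ) := by
  funext i
  rw [Finset.sum_apply]
  simp only [Pi.smul_apply, Pi.single_apply, smul_eq_mul, mul_ite, mul_one, mul_zero]
  rw [sum_ite_eq, if_pos (mem_univ _)]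

theorem ip_adj (ψ : (ι → ℂ) →ₗ[ℂ] (ι' → ℂ)) (w : ι' → ℂ) (u : ι → ℂ) :
    ip (adj ψ w) u = ip w (ψ u) := by
  conv_rhs => rw [sum_single_one u, map_sum, ip_sum_right]
  unfold ip
  refine sum_congr rfl fun I _ => ?_
  rw [map_smul]
  change (starRingEnd ℂ) ((starRingEnd ℂ) (ip w (ψ (Pi.single I 1)))) * u I = _
  rw [Complex.conj_conj]
  unfold ip
  rw [sum_mul]
  refine sum_congr rfl fun J _ => ?_
  rw [Pi.smul_apply, smul_eq_mul]
  ring

end adj

section herm

variable {B : Type} [Fintype B] [DecidableEq B] {κ κ' : Type} [Fintype κ] [DecidableEq κ]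
  [Fintype κ'] [DecidableEq κ'] {D Om S Si : Matrix B B ℂ}

/-- The hermitian form on the forms of degree `κ`. -/
def hp (Si : Matrix B B ℂ) (u c : (κ → B) → ℂ) : ℂ :=
  ip (pull (fun _ => Si) u) (pull (fun _ => Si) c)

theorem hp_zero_left (c : (κ → B) → ℂ) : hp Si 0 c = 0 := by
  unfold hp
  rw [map_zero, ip_zero_left]

theorem hp_self (hSi : Si * S = 1) {u : (κ → B) → ℂ} (h : hp Si u u = 0) : u = 0 := by
  have h1 := ip_self h
  rw [← pull_back hSi u, h1, map_zero]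

theorem hp_act (hSi : Si * S = 1) (X : Matrix B B ℂ) (u c : (κ → B) → ℂ) :
    hp Si (act X u) c = hp Si u (act (Si * Siᴴ * Xᴴ * (Sᴴ * S)) c) := by
  unfold hp
  rw [← act_pull (A := fun _ => Si) (X := X) (Y := S * X * Si) (fun _ => SiX_eq hSi X) u,
    ← act_pull (A := fun _ => Si) (X := Si * Siᴴ * Xᴴ * (Sᴴ * S))
      (Y := S * (Si * Siᴴ * Xᴴ * (Sᴴ * S)) * Si) (fun _ => SiX_eq hSi _) c, ← adj_eq hSi X]
  have h1 := ip_act (S * X * Si)ᴴ (pull (fun _ => Si) u) (pull (fun _ => Si) c)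
  rw [conjTranspose_conjTranspose] at h1
  exact h1

/-- The adjoint for the hermitian forms. -/
def hadj (S Si : Matrix B B ℂ) (φ : ((κ → B) → ℂ) →ₗ[ℂ] ((κ' → B) → ℂ)) :
    ((κ' → B) → ℂ) →ₗ[ℂ] ((κ → B) → ℂ) :=
  (pull fun _ => S) ∘ₗ adj ((pull fun _ => Si) ∘ₗ φ ∘ₗ (pull fun _ => S)) ∘ₗ (pull fun _ => Si)

theorem hp_hadj (hSi : Si * S = 1) (φ : ((κ → B) → ℂ) →ₗ[ℂ] ((κ' → B) → ℂ))
    (w : (κ' → B) → ℂ) (u : (κ → B) → ℂ) : hp Si (hadj S Si φ w) u = hp Si w (φ u) := by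
  have hiS : S * Si = 1 := mul_eq_one_comm.1 hSi
  unfold hp hadj
  rw [LinearMap.comp_apply, LinearMap.comp_apply, pull_back hiS, ip_adj, LinearMap.comp_apply,
    LinearMap.comp_apply, pull_back hSi]

theorem hp_ext (hSi : Si * S = 1) {c d : (κ → B) → ℂ} (h : ∀ u, hp Si c u = hp Si d u) :
    c = d := by
  have h1 : hp Si (c - d) (c - d) = 0 := by
    have h2 : hp Si (c - d) (c - d) = hp Si c (c - d) - hp Si d (c - d) := by
      unfold hp
      have h3 : pull (fun _ => Si) (c - d) =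
          pull (fun _ : κ => Si) c + (-1 : ℂ) • pull (fun _ : κ => Si) d := by
        rw [map_sub, neg_one_smul, sub_eq_add_neg]
      nth_rewrite 1 [h3]
      rw [ip_add_left, ip_smul_left, map_neg, map_one]
      ring
    rw [h2, h, sub_self]
  exact sub_eq_zero.1 (hp_self hSi h1)

/-- Adjoints of equivariant maps are equivariant. -/
theorem hadj_equiv (H : Herm {D} Om S Si) {φ : ((κ → B) → ℂ) →ₗ[ℂ] ((κ' → B) → ℂ)}
    (hφ : ∀ X ∈ LA {D}, ∀ u, φ (act X u) = act X (φ u)) {X : Matrix B B ℂ} (hX : X ∈ LA {D})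
    (w : (κ' → B) → ℂ) : hadj S Si φ (act X w) = act X (hadj S Si φ w) := by
  refine hp_ext H.SiS fun u => ?_
  rw [hp_hadj H.SiS, hp_act H.SiS, ← hφ _ (H.adj X hX), ← hp_hadj H.SiS, hp_act H.SiS]

end herm

end

end Pool.Agent.N634.GHC
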