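import Mathlib
import Pool.Agent.N634.GHC.Adj

/-!
# Rational Hodge substructures of small level are spanned by contractions of Hodge tensors
-/

set_option linter.unusedSectionVars false

namespace Pool.Agent.N634.GHC

open Finset Matrix Pool.Agent.W437.HC Pool.Agent.W437.HD Pool.Agent.V1168.GH
  Pool.Agent.W548.Odd Pool.Agent.N178.HW
open Pool.Agent.TH131.GHC (cx HL HL_cx HL_act eigF mem_eigF evalF_eig cst_mem_cx)

noncomputable section

variable {B : Type} [Fintype B] [DecidableEq B] {D Om S Si : Matrix B B ℂ}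

/-! ### Multiplication by powers of the invariant bilinear form -/

theorem exists_entry [Nonempty B] (hOm : Om * Om = -1) : ∃ a b, Om a b ≠ 0 := by
  by_contra h
  push Not at h
  have h1 : Om = 0 := by
    ext a b
    exact h a b
  rw [h1, mul_zero] at hOm
  have h2 : (1 : Matrix B B ℂ) = 0 := by rw [← neg_eq_zero]; exact hOm.symm
  exact one_ne_zero h2

theorem card_two {κ : Type} [Fintype κ] [DecidableEq κ] {p k : κ} (hpk : p ≠ k) :
    Fintype.card {l // l ≠ p ∧ l ≠ k} + 2 = Fintype.card κ := by
  have h3 : Fintype.card {l // l ≠ p ∧ l ≠ k} = ((Finset.univ.erase p).erase k).card := by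
    rw [Fintype.card_subtype]
    congr 1
    ext l
    simp [and_comm]
  have h5 : 1 < Fintype.card κ := Fintype.one_lt_card_iff.2 ⟨p, k, hpk⟩
  rw [h3, Finset.card_erase_of_mem (by simp [hpk.symm]), Finset.card_erase_of_mem
    (Finset.mem_univ _), Finset.card_univ]
  omega

/-- The multiplication by a bilinear form. -/
def prodL {κ : Type} [Fintype κ] [DecidableEq κ] (p k : κ) (β : Matrix B B ℂ) :
    (({l // l ≠ p ∧ l ≠ k} → B) → ℂ) →ₗ[ℂ] ((κ → B) → ℂ) where
  toFun := prod1 p k β
  map_add' x y := by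
    funext I
    simp only [prod1, Pi.add_apply, mul_add]
  map_smul' r x := by
    funext I
    simp only [prod1, Pi.smul_apply, smul_eq_mul, RingHom.id_apply]
    ring

/-- Tensor spaces embed equivariantly in those of larger degree of the same parity. -/
theorem exists_mul [Nonempty B] (hOm : Om * Om = -1) {κ' : Type} [Fintype κ'] [DecidableEq κ'] :
    ∀ (m : ℕ) (κ : Type) [Fintype κ] [DecidableEq κ], Fintype.card κ = Fintype.card κ' + 2 * m →
      ∃ M : ((κ' → B) → ℂ) →ₗ[ℂ] ((κ → B) → ℂ), (∀ c, M c = 0 → c = 0) ∧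
        ∀ X : Matrix B B ℂ, Xᵀ * Om + Om * X = 0 → ∀ c, M (act X c) = act X (M c) := by
  intro m
  induction m with
  | zero =>
    intro κ _ _ hc
    rw [mul_zero, add_zero] at hc
    let e : κ ≃ κ' := Fintype.equivOfCardEq hc
    refine ⟨{ toFun := fun c I => c (fun k => I (e.symm k)), map_add' := fun _ _ => rfl,
              map_smul' := fun _ _ => rfl }, ?_, ?_⟩
    · intro c h
      funext z
      have h1 := congrFun h (fun l => z (e l))
      change c (fun k => z (e (e.symm k))) = 0 at h1
      simp only [Equiv.apply_symm_apply] at h1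
      exact h1
    · intro X _ c
      exact (act_reindex e X c).symm
  | succ m ih =>
    intro κ _ _ hc
    obtain ⟨p, k, hpk⟩ := Fintype.one_lt_card_iff.1 (show 1 < Fintype.card κ by omega)
    have h1 := card_two hpk
    obtain ⟨M, hM1, hM2⟩ := ih {l // l ≠ p ∧ l ≠ k} (by omega)
    obtain ⟨a, b, hab⟩ := exists_entry hOm
    refine ⟨prodL p k Om ∘ₗ M, ?_, ?_⟩
    · intro c h
      refine hM1 c ?_
      funext I'
      have h2 := congrFun h (Pool.Agent.H204R3.SP.fill p k a b I')
      change prod1 p k Om (M c) _ = 0 at h2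
      rw [prod1_fill hpk] at h2
      exact (mul_eq_zero.1 h2).resolve_left hab
    · intro X hX c
      change prod1 p k Om (M (act X c)) = act X (prod1 p k Om (M c))
      rw [hM2 X hX, act_prod1 hpk hX]

/-! ### Invariant tensors are combinations of rational ones -/

/-- The slices of an invariant tensor are combinations of rational ones. -/
theorem slice_mem {n i : ℕ} {τ : (Fin n ⊕ Fin i → B) → ℂ} (hτ : ∀ X ∈ LA {D}, act X τ = 0)
    (J : Fin n → B) : (fun I => τ (Sum.elim J I)) ∈ cx (RS D n i) := by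
  let C : Submodule ℂ ((Fin n ⊕ Fin i → B) → ℂ) :=
    { carrier := {τ | ∀ X ∈ LA {D}, act X τ = 0}
      zero_mem' := fun X _ => act_zero_right X
      add_mem' := by
        intro a b ha hb X hX
        rw [act_add_right, ha X hX, hb X hX, add_zero]
      smul_mem' := by
        intro r a ha X hX
        rw [act_smul_right, ha X hX, smul_zero] }
  have hC : ∀ (σ : ℂ ≃+* ℂ), ∀ v ∈ C, (fun i => σ (v i)) ∈ C := by
    intro σ v hv X hX
    have h1 := hv _ (LA_aut (σ.symm : ℂ →+* ℂ) hX)
    have h2 := cjf_act σ (X.map (σ.symm : ℂ →+* ℂ)) v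
    have h3 : (X.map (σ.symm : ℂ →+* ℂ)).map (σ : ℂ →+* ℂ) = X := by
      ext i j
      exact σ.apply_symm_apply _
    rw [h1, h3, cjf_zero] at h2
    exact h2
  have hsp := span_rational C hC
  have hτC : τ ∈ C := hτ
  rw [hsp] at hτC
  clear hτ
  induction hτC using Submodule.span_induction with
  | mem w hw =>
    obtain ⟨hw1, u, rfl⟩ := hw
    have h1 : (fun I : Fin i → B => ((u (Sum.elim J I) : ℚ) : ℂ)) =
        cst ℂ (fun I => u (Sum.elim J I)) := rfl
    rw [h1]
    refine cst_mem_cx ?_
    refine Submodule.subset_span ⟨u, Pi.single J 1, ?_, ?_⟩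
    · exact hw1 D (LA_self (Set.mem_singleton D))
    · funext I
      rw [Finset.sum_eq_single J]
      · rw [Pi.single_eq_same, one_mul]
      · intro J' _ hJ'
        rw [Pi.single_eq_of_ne hJ', zero_mul]
      · intro h
        exact absurd (mem_univ _) h
  | zero => exact Submodule.zero_mem _
  | add x y _ _ hx hy => exact Submodule.add_mem _ hx hy
  | smul r x _ hx => exact Submodule.smul_mem _ r hx

/-- The product of the bilinear forms `Om` in the slots of `J` and `J'`. -/
def WW (Om : Matrix B B ℂ) {κ : Type} [Fintype κ] (J' : κ → B) : (κ → B) → ℂ :=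
  fun J => ∏ k, Om (J k) (J' k)

theorem prod_update {κ : Type} [Fintype κ] [DecidableEq κ] (Y : Matrix B B ℂ)
    (J J' : κ → B) (k : κ) (j : B) :
    ∏ l, Y (Function.update J k j l) (J' l) = Y j (J' k) * ∏ l ∈ univ.erase k, Y (J l) (J' l) := by
  rw [← mul_prod_erase _ _ (mem_univ k), Function.update_self]
  congr 1
  exact prod_congr rfl fun l hl => by rw [Function.update_of_ne (ne_of_mem_erase hl)]

theorem prod_update' {κ : Type} [Fintype κ] [DecidableEq κ] (Y : Matrix B B ℂ)
    (J J' : κ → B) (k : κ) (j : B) :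
    ∏ l, Y (J l) (Function.update J' k j l) = Y (J k) j * ∏ l ∈ univ.erase k, Y (J l) (J' l) := by
  rw [← mul_prod_erase _ _ (mem_univ k), Function.update_self]
  congr 1
  exact prod_congr rfl fun l hl => by rw [Function.update_of_ne (ne_of_mem_erase hl)]

/-- The action on one factor is the opposite of the action on the other. -/
theorem act_WW {κ : Type} [Fintype κ] [DecidableEq κ] {X : Matrix B B ℂ}
    (hX : Xᵀ * Om + Om * X = 0) (J' : κ → B) :
    act X (WW Om J') + ∑ k, ∑ j, X j (J' k) • WW Om (Function.update J' k j) = 0 := by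
  funext J
  rw [Pi.add_apply, Pi.zero_apply, Finset.sum_apply]
  unfold act
  rw [← sum_add_distrib]
  refine sum_eq_zero fun k _ => ?_
  rw [Finset.sum_apply]
  have h1 := congrFun (congrFun hX (J k)) (J' k)
  rw [Matrix.add_apply, Matrix.zero_apply, Matrix.mul_apply, Matrix.mul_apply] at h1
  have h2 : ∀ j, X j (J k) * WW Om J' (Function.update J k j) =
      (Xᵀ (J k) j * Om j (J' k)) * ∏ l ∈ univ.erase k, Om (J l) (J' l) := by
    intro j
    unfold WW
    rw [prod_update, transpose_apply]
    ring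
  have h3 : ∀ j, (X j (J' k) • WW Om (Function.update J' k j)) J =
      (Om (J k) j * X j (J' k)) * ∏ l ∈ univ.erase k, Om (J l) (J' l) := by
    intro j
    rw [Pi.smul_apply, smul_eq_mul]
    unfold WW
    rw [prod_update']
    ring
  rw [sum_congr rfl (fun j _ => h2 j), sum_congr rfl (fun j _ => h3 j), ← sum_mul, ← sum_mul,
    ← add_mul, h1, zero_mul]

/-- The delta functions are combinations of the products. -/
theorem single_eq {κ : Type} [Fintype κ] [DecidableEq κ] (hOm : Om * Om = -1) (J : κ → B) :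
    (Pi.single J 1 : (κ → B) → ℂ) = ∑ J', (∏ k, (-Om) (J' k) (J k)) • WW Om J' := by
  funext J0
  rw [Finset.sum_apply]
  have h1 : ∀ J' : κ → B, ((∏ k, (-Om) (J' k) (J k)) • WW Om J') J0 =
      ∏ k, Om (J0 k) (J' k) * (-Om) (J' k) (J k) := by
    intro J'
    rw [Pi.smul_apply, smul_eq_mul]
    unfold WW
    rw [← prod_mul_distrib]
    exact prod_congr rfl fun k _ => mul_comm _ _
  rw [sum_congr rfl (fun J' _ => h1 J')]
  have h2 := Finset.prod_univ_sum (fun _ : κ => (univ : Finset B))
    (fun k j => Om (J0 k) j * (-Om) j (J k))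
  rw [Fintype.piFinset_univ] at h2
  rw [← h2]
  have h3 : ∀ k, ∑ j, Om (J0 k) j * (-Om) j (J k) = (1 : Matrix B B ℂ) (J0 k) (J k) := by
    intro k
    rw [← Matrix.mul_apply, mul_neg, hOm, neg_neg]
  rw [prod_congr rfl (fun k _ => h3 k)]
  by_cases h : J0 = J
  · subst h
    rw [Pi.single_eq_same]
    exact (prod_eq_one fun k _ => Matrix.one_apply_eq _).symm
  · rw [Pi.single_eq_of_ne h]
    obtain ⟨k, hk⟩ := Function.ne_iff.1 h
    exact (prod_eq_zero (mem_univ k) (show (1 : Matrix B B ℂ) (J0 k) (J k) = 0 from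
      Matrix.one_apply_ne hk)).symm

/-- The tensor of an equivariant map is invariant. -/
theorem tensor_inv {n i : ℕ} {ψ : ((Fin n → B) → ℂ) →ₗ[ℂ] ((Fin i → B) → ℂ)}
    {X : Matrix B B ℂ} (hψ : ∀ u, ψ (act X u) = act X (ψ u)) (hX : Xᵀ * Om + Om * X = 0) :
    act X (fun z : Fin n ⊕ Fin i → B =>
      ψ (WW Om (fun k => z (Sum.inl k))) (fun k => z (Sum.inr k))) = 0 := by
  funext z
  rw [Pi.zero_apply]
  unfold act
  rw [Fintype.sum_sum_type]
  have h1 : ∀ (k : Fin n) (j : B), (fun l : Fin n => Function.update z (Sum.inl k) j (Sum.inl l)) =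
      Function.update (fun l => z (Sum.inl l)) k j := by
    intro k j
    funext l
    by_cases h : l = k
    · subst h
      rw [Function.update_self, Function.update_self]
    · rw [Function.update_of_ne h, Function.update_of_ne (fun h' => h (Sum.inl.inj h'))]
  have h2 : ∀ (k : Fin n) (j : B), (fun l : Fin i => Function.update z (Sum.inl k) j (Sum.inr l)) =
      fun l => z (Sum.inr l) := by
    intro k j
    funext l
    rw [Function.update_of_ne (by simp)]
  have h3 : ∀ (k : Fin i) (j : B), (fun l : Fin i => Function.update z (Sum.inr k) j (Sum.inr l)) =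
      Function.update (fun l => z (Sum.inr l)) k j := by
    intro k j
    funext l
    by_cases h : l = k
    · subst h
      rw [Function.update_self, Function.update_self]
    · rw [Function.update_of_ne h, Function.update_of_ne (fun h' => h (Sum.inr.inj h'))]
  have h4 : ∀ (k : Fin i) (j : B), (fun l : Fin n => Function.update z (Sum.inr k) j (Sum.inl l)) =
      fun l => z (Sum.inl l) := by
    intro k j
    funext l
    rw [Function.update_of_ne (by simp)]
  simp only [h1, h2, h3, h4]
  have h5 := congrArg ψ (act_WW hX (fun k => z (Sum.inl k)))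
  rw [map_add, map_zero, hψ, map_sum] at h5
  simp only [map_sum, map_smul] at h5
  have h6 := congrFun h5 (fun k => z (Sum.inr k))
  rw [Pi.add_apply, Pi.zero_apply, Finset.sum_apply] at h6
  simp only [Finset.sum_apply, Pi.smul_apply, smul_eq_mul] at h6
  rw [add_comm]
  exact h6

/-- The span of the images of the equivariant maps. -/
def QQ (D : Matrix B B ℂ) (n i : ℕ) : Submodule ℂ ((Fin i → B) → ℂ) :=
  Submodule.span ℂ {c | ∃ ψ : ((Fin n → B) → ℂ) →ₗ[ℂ] ((Fin i → B) → ℂ),
    (∀ X ∈ LA {D}, ∀ u, ψ (act X u) = act X (ψ u)) ∧ ∃ w, c = ψ w}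

theorem QQ_le (H : Herm {D} Om S Si) (n i : ℕ) : QQ D n i ≤ cx (RS D n i) := by
  refine Submodule.span_le.2 ?_
  rintro _ ⟨ψ, hψ, w, rfl⟩
  change ψ w ∈ cx (RS D n i)
  rw [sum_single_one w, map_sum]
  refine Submodule.sum_mem _ fun J _ => ?_
  rw [map_smul, single_eq H.Om2 J, map_sum]
  refine Submodule.smul_mem _ _ (Submodule.sum_mem _ fun J' _ => ?_)
  rw [map_smul]
  refine Submodule.smul_mem _ _ ?_
  exact slice_mem (τ := fun z : Fin n ⊕ Fin i → B =>
      ψ (WW Om (fun k => z (Sum.inl k))) (fun k => z (Sum.inr k)))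
    (fun X hX => tensor_inv (hψ X hX) (H.sp X hX)) J'

theorem QQ_stb (n i : ℕ) : Stb (LA {D}) (QQ D n i) := by
  intro X hX c hc
  unfold QQ at hc
  induction hc using Submodule.span_induction with
  | mem c hc =>
    obtain ⟨ψ, hψ, w, rfl⟩ := hc
    rw [← hψ X hX]
    exact Submodule.subset_span ⟨ψ, hψ, _, rfl⟩
  | zero =>
    rw [act_zero_right]
    exact Submodule.zero_mem _
  | add x y _ _ hx hy =>
    rw [act_add_right]
    exact Submodule.add_mem _ hx hy
  | smul r x _ hx =>
    rw [act_smul_right]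
    exact Submodule.smul_mem _ _ hx

/-! ### The level -/

section poly

variable {κ : Type} [Fintype κ] [DecidableEq κ]

/-- The action as an operator. -/
def actE (X : Matrix B B ℂ) : Module.End ℂ ((κ → B) → ℂ) where
  toFun := act X
  map_add' := act_add_right X
  map_smul' a c := act_smul_right a X c

theorem actE_apply (X : Matrix B B ℂ) (c : (κ → B) → ℂ) : actE X c = act X c := rfl

open Polynomial in
theorem aeval_mem {E : Type*} [AddCommGroup E] [Module ℂ E] (T : Module.End ℂ E)
    (N : Submodule ℂ E) (h : ∀ v ∈ N, T v ∈ N) (p : ℂ[X]) : ∀ v ∈ N, aeval T p v ∈ N := by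
  induction p using Polynomial.induction_on' with
  | add p q hp hq =>
    intro v hv
    rw [map_add, LinearMap.add_apply]
    exact N.add_mem (hp v hv) (hq v hv)
  | monomial n a =>
    intro v hv
    rw [aeval_monomial, Module.algebraMap_end_eq_smul_id, smul_mul_assoc, LinearMap.smul_apply,
      Module.End.mul_apply, LinearMap.id_apply]
    refine N.smul_mem _ ?_
    induction n with
    | zero =>
      rw [pow_zero]
      exact hv
    | succ n ih =>
      rw [pow_succ', Module.End.mul_apply]
      exact h _ ih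

open Polynomial in
/-- A functional with `f ∘ T = a f`. -/
theorem aeval_func {E F : Type*} [AddCommGroup E] [Module ℂ E] [AddCommGroup F] [Module ℂ F]
    (T : Module.End ℂ E) (f : E →ₗ[ℂ] F) (N : Submodule ℂ E) (hN : ∀ v ∈ N, T v ∈ N) (a : ℂ)
    (h : ∀ v ∈ N, f (T v) = a • f v) (p : ℂ[X]) :
    ∀ v ∈ N, f (aeval T p v) = p.eval a • f v := by
  induction p using Polynomial.induction_on' with
  | add p q hp hq =>
    intro v hv
    rw [map_add, LinearMap.add_apply, map_add, hp v hv, hq v hv, eval_add, add_smul]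
  | monomial n b =>
    intro v hv
    rw [aeval_monomial, Module.algebraMap_end_eq_smul_id, smul_mul_assoc, LinearMap.smul_apply,
      Module.End.mul_apply, LinearMap.id_apply, eval_monomial, map_smul, mul_smul]
    congr 1
    have h1 : ∀ m : ℕ, (T ^ m) v ∈ N ∧ f ((T ^ m) v) = a ^ m • f v := by
      intro m
      induction m with
      | zero =>
        rw [pow_zero, pow_zero, one_smul]
        exact ⟨hv, rfl⟩
      | succ m ih =>
        rw [pow_succ', Module.End.mul_apply]
        refine ⟨hN _ ih.1, ?_⟩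
        rw [h _ ih.1, ih.2, smul_smul, pow_succ']
    exact (h1 n).2

end poly

/-! ### The theorem -/

/-- **Rational Hodge substructures of small level.** -/
theorem t_RAT {B : Type} [Fintype B] [DecidableEq B] [Nonempty B] {D Om S Si : Matrix B B ℂ}
    (H : Herm {D} Om S Si) (n i : ℕ) (hmaps : HasMaps D n i)
    (V : Submodule ℚ ((Fin i → B) → ℚ)) (hV : HL D (n : ℤ) V) : V ≤ RS D n i := by
  have hSi := H.SiS
  have hDL : D ∈ LA {D} := LA_self (Set.mem_singleton D)
  -- the space orthogonal to `QQ`
  let M : Submodule ℂ ((Fin i → B) → ℂ) := cx V ⊔ QQ D n i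
  have hMst : Stb (LA {D}) M := by
    intro X hX c hc
    obtain ⟨a, ha, b, hb, rfl⟩ := Submodule.mem_sup.1 hc
    rw [act_add_right]
    exact Submodule.add_mem_sup (stb_cx hV X hX a ha) (QQ_stb n i X hX b hb)
  let U : Submodule ℂ ((Fin i → B) → ℂ) :=
    { carrier := {u | u ∈ M ∧ ∀ v ∈ QQ D n i, hp Si v u = 0}
      zero_mem' := by
        refine ⟨M.zero_mem, fun v _ => ?_⟩
        unfold hp
        rw [map_zero, ip_zero_right]
      add_mem' := by
        rintro a b ⟨ha1, ha2⟩ ⟨hb1, hb2⟩
        refine ⟨M.add_mem ha1 hb1, fun v hv => ?_⟩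
        have h1 := ha2 v hv
        have h2 := hb2 v hv
        unfold hp at *
        rw [map_add, ip_add_right, h1, h2, add_zero]
      smul_mem' := by
        rintro r a ⟨ha1, ha2⟩
        refine ⟨M.smul_mem r ha1, fun v hv => ?_⟩
        have h1 := ha2 v hv
        unfold hp at *
        rw [map_smul, ip_smul_right, h1, mul_zero] }
  have hUst : Stb (LA {D}) U := by
    rintro X hX c ⟨hc1, hc2⟩
    refine ⟨hMst X hX c hc1, fun v hv => ?_⟩
    -- the adjoint of an element of the Lie algebra
    have h1 : hp Si (act X c) v = 0 := by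
      rw [hp_act hSi]
      have h2 := hc2 _ (QQ_stb n i _ (H.adj X hX) v hv)
      unfold hp at *
      rw [← ip_conj, h2, map_zero]
    unfold hp at *
    rw [← ip_conj, h1, map_zero]
  have hUlev : LvC D n U := by
    rintro u ⟨hu1, hu2⟩ x ε hε hx hlt
    -- the polynomial with the roots `-n, ..., n`
    obtain ⟨p, hp'⟩ : ∃ p : Polynomial ℂ, p = ∏ b ∈ Finset.Icc (-(n : ℤ)) n,
        (Polynomial.X - Polynomial.C ((b : ℤ) : ℂ)) := ⟨_, rfl⟩
    have hev : ∀ z : ℂ, p.eval z = ∏ b ∈ Finset.Icc (-(n : ℤ)) n, (z - ((b : ℤ) : ℂ)) := by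
      intro z
      rw [hp', Polynomial.eval_prod]
      exact prod_congr rfl fun b _ => by
        rw [Polynomial.eval_sub, Polynomial.eval_X, Polynomial.eval_C]
    have hne : p.eval (((∑ k, ε k : ℤ)) : ℂ) ≠ 0 := by
      rw [hev, prod_ne_zero_iff]
      intro b hb h0
      rw [sub_eq_zero] at h0
      have h1 : (∑ k, ε k : ℤ) = b := by exact_mod_cast h0
      rw [h1] at hlt
      rw [Finset.mem_Icc] at hb
      have h2 := abs_le.2 hb
      omega
    have hz : ∀ b : {a : ℤ // |a| ≤ (n : ℤ)}, p.eval ((b.1 : ℤ) : ℂ) = 0 := by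
      intro b
      rw [hev]
      refine prod_eq_zero (i := b.1) ?_ (sub_self _)
      rw [Finset.mem_Icc]
      exact abs_le.1 b.2
    -- the operator kills `cx V`
    have hkill : ∀ v ∈ cx V, Polynomial.aeval (actE D) p v = 0 := by
      intro v hv
      have h1 := HL_cx hV hv
      induction h1 using Submodule.iSup_induction' with
      | mem b y hy =>
        have h2 := aeval_func (actE D) LinearMap.id (eigF D (Fin i) b.1)
          (by
            intro w hw
            rw [actE_apply, mem_eigF.1 hw]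
            exact Submodule.smul_mem _ _ hw) ((b.1 : ℤ) : ℂ)
          (by
            intro w hw
            rw [LinearMap.id_apply, LinearMap.id_apply, actE_apply]
            exact mem_eigF.1 hw) p y hy.2
        rw [LinearMap.id_apply, LinearMap.id_apply, hz b, zero_smul] at h2
        exact h2
      | zero => exact map_zero _
      | add y z _ _ hy hz =>
        have hle : (⨆ b : {a : ℤ // |a| ≤ (n : ℤ)}, cx V ⊓ eigF D (Fin i) b.1) ≤ cx V :=
          iSup_le fun b => inf_le_left
        rw [map_add, hy (hle ‹_›), hz (hle ‹_›), add_zero]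
    obtain ⟨v, hv, q, hq, rfl⟩ := Submodule.mem_sup.1 hu1
    have hw1 : Polynomial.aeval (actE D) p (v + q) ∈ QQ D n i := by
      rw [map_add, hkill v hv, zero_add]
      exact aeval_mem _ _ (fun w hw => QQ_stb n i D hDL w hw) p q hq
    have hw2 : Polynomial.aeval (actE D) p (v + q) ∈ U :=
      aeval_mem _ _ (fun w hw => hUst D hDL w hw) p _ ⟨hu1, hu2⟩
    have hw3 : Polynomial.aeval (actE D) p (v + q) = 0 := hp_self hSi (hw2.2 _ hw1)
    let f : ((Fin i → B) → ℂ) →ₗ[ℂ] ℂ :=
      { toFun := fun c => evalF c x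
        map_add' := fun c d => evalF_add c d x
        map_smul' := fun a c => evalF_smul a c x }
    have h3 := aeval_func (actE D) f ⊤ (fun _ _ => Submodule.mem_top) (((∑ k, ε k : ℤ)) : ℂ)
      (by
        intro w _
        change evalF (act D w) x = _ • evalF w x
        rw [evalF_act]
        have h4 : ∀ k, evalF w (Function.update x k (D *ᵥ x k)) = (ε k : ℂ) * evalF w x := by
          intro k
          rw [hx, evalF_update_smul, Function.update_eq_self]
        rw [sum_congr rfl (fun k _ => h4 k), ← sum_mul, smul_eq_mul]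
        push_cast
        rfl) p (v + q) Submodule.mem_top
    rw [hw3, map_zero] at h3
    exact ((smul_eq_zero.1 h3.symm).resolve_left hne)
  -- `U` is zero
  have hU0 : U = ⊥ := by
    by_contra hne
    obtain ⟨κ', i1, i2, hcard, heven, φ, hφ, u, hu, hφu⟩ := hmaps U hne hUst hUlev
    obtain ⟨m, hm⟩ := heven
    obtain ⟨Mu, hM1, hM2⟩ := exists_mul (κ' := κ') H.Om2 m (Fin n) (by
      rw [Fintype.card_fin]
      omega)
    have hφ' : ∀ X ∈ LA {D}, ∀ u, (Mu ∘ₗ φ) (act X u) = act X ((Mu ∘ₗ φ) u) := by
      intro X hX u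
      rw [LinearMap.comp_apply, LinearMap.comp_apply, hφ X hX, hM2 X (H.sp X hX)]
    have hQ : hadj S Si (Mu ∘ₗ φ) ((Mu ∘ₗ φ) u) ∈ QQ D n i := by
      refine Submodule.subset_span ⟨hadj S Si (Mu ∘ₗ φ), ?_, _, rfl⟩
      intro X hX w
      exact hadj_equiv H hφ' hX w
    have h1 := hu.2 _ hQ
    rw [hp_hadj hSi] at h1
    exact hφu (hM1 _ (hp_self hSi h1))
  -- the conclusion
  have hle : M ≤ QQ D n i := by
    have h1 : (M.map (pull fun _ => Si)) ≤ (QQ D n i).map (pull fun _ => Si) := by
      refine le_of_compl (Submodule.map_mono le_sup_right) ?_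
      rintro _ ⟨u, hu, rfl⟩ hort
      have h2 : u ∈ U := ⟨hu, fun v hv => hort _ ⟨v, hv, rfl⟩⟩
      rw [hU0, Submodule.mem_bot] at h2
      rw [h2, map_zero]
    intro u hu
    obtain ⟨v, hv, hvu⟩ := h1 ⟨u, hu, rfl⟩
    have h2 : u = v := by
      rw [← pull_back hSi u, ← pull_back hSi v]
      exact congrArg _ hvu.symm
    rw [h2]
    exact hv
  intro v hv
  exact mem_of_cst_mem_cx (QQ_le H n i (hle (Submodule.mem_sup_left (cst_mem_cx hv))))

end

end Pool.Agent.N634.GHC
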